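import Pool.Agent.J4.H13.CC.Defs

/-!
# Newforms whose residual representations occur in abelian varieties: definitions
-/

set_option autoImplicit false

namespace Pool.Agent.J4.H13.RD

open Pool.Agent.J4.H9.HM Pool.Agent.J4.H13.CC NumberField

variable {ℓ : ℕ} [Fact ℓ.Prime]

/-- The algebraic closure of the field with `p` elements. -/
def Fpb (p : Nat.Primes) : Type :=
  haveI : Fact p.1.Prime := ⟨p.2⟩
  AlgebraicClosure (ZMod p.1)

noncomputable instance (p : Nat.Primes) : Field (Fpb p) :=
  haveI : Fact p.1.Prime := ⟨p.2⟩
  (inferInstance : Field (AlgebraicClosure (ZMod p.1)))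

/-- The homomorphisms from the ring of integers of `M` to the algebraic closure of the field with `p`
elements: the places `λ` of `M` above `p`, with embeddings of the residue fields. -/
abbrev Red (M : Type) [Field M] [NumberField M] (p : Nat.Primes) : Type := 𝓞 M →+* Fpb p

/-- The representations with coefficients in the algebraic closure of the field with `p` elements, for
all prime numbers `p`: the semisimplification `tor p A` of the points of order `p` of the abelian variety
`A` (with extended coefficients), which depends only on the isogeny class of `A`, and the residual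
representations `rbar f p r` of the newforms `f` at the places `r` above `p` (semisimple, of
dimension two). -/
structure Residual (𝒜 : AbVars ℓ) (𝒩 : Newforms ℓ) where
  tor : ∀ {k : NField} (p : Nat.Primes), 𝒜.AV k → GRep (Fpb p) k.Gal
  rbar : ∀ {k : NField} (f : 𝒩.New k) (p : Nat.Primes), Red (𝒩.M f) p → GRep (Fpb p) k.Gal

/-- Outside `S`, and outside the places above `p`, the numbers `a v` are integral and the traces of the
Frobenius elements at `v` on `R` are their reductions. -/
def TracesMod {k : NField} {M : Type} [Field M] [NumberField M] {p : Nat.Primes}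
    (S : Finset k.Pl) (R : GRep (Fpb p) k.Gal) (r : Red M p) (a : k.Pl → M) : Prop :=
  ∀ v ∉ S, (p.1 : k.O) ∉ v.asIdeal → ∀ g, IsFrob v g → ∃ b : 𝓞 M, (b : M) = a v ∧ tr R g = r b

variable {𝒜 : AbVars ℓ} {𝒩 : Newforms ℓ}

/-- **Faltings, Zarhin**: let `A` be a simple abelian variety. Its Tate module is the sum of `m` copies of
each of the irreducible representations `W σ` with the traces `σ (t v)`, where `σ` are the embeddings of the
centre `Z` of the endomorphism algebra; and for all but finitely many prime numbers `p` the irreducible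
constituents of the points of order `p` have the traces of the Frobenius elements which are the
reductions of the numbers `t v` at a place of `Z` above `p`. -/
def TorsionKnown (ℰ : Residual 𝒜 𝒩) {k : NField} (A : 𝒜.AV k) : Prop :=
  ∃ (Z : Type) (_ : Field Z) (_ : NumberField Z) (m : ℕ) (W : (Z →+* Qlb ℓ) → LRep ℓ k)
    (t : k.Pl → Z) (S : Finset k.Pl) (N : ℕ), 0 < m ∧ TateDecomposition 𝒜 A m W t ∧
    ∀ p : Nat.Primes, N ≤ p.1 → ∀ R : GRep (Fpb p) k.Gal, Irr R → Occurs R (ℰ.tor p A) →
      ∃ s : Red Z p, TracesMod S R s t

/-- Known facts on abelian varieties: there are only finitely many number fields of bounded degree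
unramified outside a finite set of primes (Hermite, Minkowski), and only finitely many isogeny classes of
abelian varieties of bounded dimension with good reduction outside a finite set (Faltings); the irreducible
constituents of the points of order `p` of `B` occur in the simple factors (Poincaré); and the facts on
the simple abelian varieties (Faltings, Zarhin). -/
structure Residual.IsKnown (ℰ : Residual 𝒜 𝒩) (ℛ : Reductions 𝒜) : Prop where
  hermite : HermiteMinkowski
  shafarevich : ∀ (k : NField) (d : ℕ) (S : Finset ℕ), {A : 𝒜.AV k | VarBound ℛ d S A}.Finite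
  poincare : ∀ (k : NField) (p : Nat.Primes) (B : 𝒜.AV k) (R : GRep (Fpb p) k.Gal), Irr R →
    Occurs R (ℰ.tor p B) → ∃ A : 𝒜.AV k, 𝒜.Simple A ∧ 𝒜.dim A ≤ 𝒜.dim B ∧
      ℛ.bad A ⊆ ℛ.bad B ∧ Occurs R (ℰ.tor p A)
  torsion : ∀ (k : NField) (A : 𝒜.AV k), 𝒜.Simple A → TorsionKnown ℰ A

/-- Over the extension `k'` the representations of `f` and the residual representations of `f` are
irreducible, the latter for all but finitely many `p` and all places of `M` above `p`. -/
def IrrOver (ℰ : Residual 𝒜 𝒩) {k k' : NField} (h : k.F ≤ k'.F) (f : 𝒩.New k) : Prop :=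
  (∀ τ, Irr (res h (𝒩.ρ f τ))) ∧
    ∃ N : ℕ, ∀ p : Nat.Primes, N ≤ p.1 → ∀ r, Irr (res h (ℰ.rbar f p r))

/-- Over the extension `k'` the traces of the Frobenius elements on the representations of `f` and on the
residual representations of `f` are given by the same elements of `M`. -/
def TracesOver (ℰ : Residual 𝒜 𝒩) {k k' : NField} (h : k.F ≤ k'.F) (f : 𝒩.New k) : Prop :=
  ∃ a : k'.Pl → 𝒩.M f, (∀ τ, TracesAre (res h (𝒩.ρ f τ)) τ a) ∧
    ∃ S : Finset k'.Pl, ∀ p r, TracesMod S (res h (ℰ.rbar f p r)) r a

/-- Known facts on the newform `f`: the traces of the Frobenius elements over extension fields; if `f` has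
no complex multiplication, then over each finite extension its representations are irreducible, and its
residual representations for all but finitely many `p` (Ribet, Dimitrov), and if it has complex
multiplication, then `A_f` exists (Shimura, Casselman); the level has finitely many prime divisors; an
abelian variety attached to `f` has good reduction outside the level, and its points of order `p` contain
the residual representations (Carayol, Serre, Tate). -/
structure FormKnown (ℰ : Residual 𝒜 𝒩) (ℛ : Reductions 𝒜) {k : NField} (f : 𝒩.New k) :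
    Prop where
  cont : ∀ (k' : NField) (h : k.F ≤ k'.F) (τ : 𝒩.M f →+* Qlb ℓ), 𝒜.Cont (res h (𝒩.ρ f τ))
  traces : ∀ (k' : NField) (h : k.F ≤ k'.F), TracesOver ℰ h f
  irr : (∀ (k' : NField) (h : k.F ≤ k'.F), IrrOver ℰ h f) ∨ HasAV 𝒜 𝒩 f
  finite : (levelPrimes f).Finite
  good : ∀ A : 𝒜.AV k, Attached 𝒜 𝒩 f A → ℛ.bad A ⊆ levelPrimes f
  occurs : ∀ A : 𝒜.AV k, Attached 𝒜 𝒩 f A → ∀ p r, Occurs (ℰ.rbar f p r) (ℰ.tor p A)

/-- Some residual representation of `f` modulo `p` occurs in an abelian variety with the bounds `D`, `d`,
`S`: over a finite extension `k'` of `k` of degree at most `D` over `ℚ`, unramified outside `S`, it occurs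
in the points of order `p` of an abelian variety `A` over `k'` of dimension at most `d` with good reduction
outside `S`. -/
def OccursMod (ℰ : Residual 𝒜 𝒩) (ℛ : Reductions 𝒜) {k : NField} (f : 𝒩.New k) (D d : ℕ)
    (S : Finset ℕ) (p : Nat.Primes) : Prop :=
  ∃ (k' : NField) (h : k.F ≤ k'.F) (r : Red (𝒩.M f) p) (A : 𝒜.AV k'), FieldBound D S k' ∧
    VarBound ℛ d S A ∧ Occurs (res h (ℰ.rbar f p r)) (ℰ.tor p A)

/-- For some bounds this is true for infinitely many prime numbers `p`. -/
def OccursInfinitely (ℰ : Residual 𝒜 𝒩) (ℛ : Reductions 𝒜) {k : NField} (f : 𝒩.New k) :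
    Prop :=
  ∃ (D d : ℕ) (S : Finset ℕ), ∀ N : ℕ, ∃ p : Nat.Primes, N ≤ p.1 ∧ OccursMod ℰ ℛ f D d S p

/-- Some residual representation of `f` modulo `p` occurs in the points of order `p` of an abelian variety
over `k` of dimension `[M : ℚ]`, where `M` is the field of `f`, with good reduction outside the level
of `f`. -/
def OccursExactly (ℰ : Residual 𝒜 𝒩) (ℛ : Reductions 𝒜) {k : NField} (f : 𝒩.New k)
    (p : Nat.Primes) : Prop :=
  ∃ (r : Red (𝒩.M f) p) (A : 𝒜.AV k), 𝒜.dim A = Module.finrank ℚ (𝒩.M f) ∧
    ℛ.bad A ⊆ levelPrimes f ∧ Occurs (ℰ.rbar f p r) (ℰ.tor p A)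

/-- The smallest case of Q1 in terms of residual representations: let `k` be a totally real field of even
degree which contains `L` and `f` a newform of level one over `k` which is not commensurable with any
newform covered by the theorem of Zhang; then for some bounds there are infinitely many `p` such that some
residual representation of `f` modulo `p` occurs in an abelian variety with these bounds. -/
def RemainingResidual (ℰ : Residual 𝒜 𝒩) (ℛ : Reductions 𝒜) (L : NField) : Prop :=
  ∀ k : NField, k.IsTotReal → L.F ≤ k.F → Even (Module.finrank ℚ k.F) → ∀ f : 𝒩.New k,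
    (∀ v, 𝒩.level f v = 0) →
    (∀ k₂ : NField, k₂.IsTotReal → ∀ g : 𝒩.New k₂, Commensurable 𝒩 f g → ¬ IsZhang 𝒩 g) →
    OccursInfinitely ℰ ℛ f

end Pool.Agent.J4.H13.RD
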