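import Pool.Agent.J4.H13.RC.Field
import Pool.Agent.J4.H13.RD.Defs
import Pool.Agent.J4.H9.HM.Main

/-!
# Newforms whose residual representations occur in abelian varieties
-/

set_option autoImplicit false

namespace Pool.Agent.J4.H13.RD

open Pool.Agent.J4.H9.HM Pool.Agent.J4.H13.CC Pool.Agent.J4.H13.RC NumberField Filter

theorem dvd_of_cast {p : Nat.Primes} {n : ℕ} (h : (n : Fpb p) = 0) : p.1 ∣ n := by
  have : Fact p.1.Prime := ⟨p.2⟩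
  exact (CharP.cast_eq_zero_iff (AlgebraicClosure (ZMod p.1)) p.1 n).1 h

theorem exists_red (M : Type) [Field M] [NumberField M] (p : Nat.Primes) :
    Nonempty (Red M p) := by
  have : Fact p.1.Prime := ⟨p.2⟩
  let P : Ideal ℤ := Ideal.span {(p.1 : ℤ)}
  have hP : P.IsMaximal := by
    have h1 : P.IsPrime := (Ideal.span_singleton_prime
      (by exact_mod_cast p.2.ne_zero)).2 (Nat.prime_iff_prime_int.1 p.2)
    exact h1.isMaximal (by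
      rw [Ne, Ideal.span_singleton_eq_bot]
      exact_mod_cast p.2.ne_zero)
  obtain ⟨Q, hQ, hQP⟩ := Ideal.exists_ideal_over_maximal_of_isIntegral (S := 𝓞 M) P (by
    intro n hn
    have h2 : algebraMap ℤ (𝓞 M) n = 0 := hn
    have h3 : n = 0 := by
      rw [eq_intCast] at h2
      exact_mod_cast h2
    rw [h3]
    exact P.zero_mem)
  let _ : Field (𝓞 M ⧸ Q) := Ideal.Quotient.field Q
  have hp0 : ((p.1 : ℕ) : 𝓞 M ⧸ Q) = 0 := by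
    have h1 : (p.1 : ℤ) ∈ Q.comap (algebraMap ℤ (𝓞 M)) := by
      rw [hQP]
      exact Ideal.mem_span_singleton_self _
    have h2 : ((p.1 : ℕ) : 𝓞 M) ∈ Q := by simpa using h1
    rw [← map_natCast (Ideal.Quotient.mk Q), Ideal.Quotient.eq_zero_iff_mem]
    exact h2
  have : CharP (𝓞 M ⧸ Q) p.1 := (CharP.charP_iff_prime_eq_zero p.2).2 hp0
  let _ : Algebra (ZMod p.1) (𝓞 M ⧸ Q) := ZMod.algebra _ p.1
  have : Algebra.IsAlgebraic (ZMod p.1) (𝓞 M ⧸ Q) := by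
    refine ⟨fun x => ?_⟩
    obtain ⟨b, rfl⟩ := Ideal.Quotient.mk_surjective x
    obtain ⟨f, hf, hf0⟩ := Algebra.IsIntegral.isIntegral (R := ℤ) b
    refine IsIntegral.isAlgebraic ⟨f.map (Int.castRingHom (ZMod p.1)), hf.map _, ?_⟩
    rw [Polynomial.eval₂_map]
    have h1 : ((algebraMap (ZMod p.1) (𝓞 M ⧸ Q)).comp (Int.castRingHom (ZMod p.1))) =
        (Ideal.Quotient.mk Q).comp (algebraMap ℤ (𝓞 M)) := RingHom.ext_int _ _
    rw [h1, ← Polynomial.hom_eval₂, hf0, map_zero]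
  let e : 𝓞 M ⧸ Q →ₐ[ZMod p.1] AlgebraicClosure (ZMod p.1) := IsAlgClosed.lift
  exact ⟨e.toRingHom.comp (Ideal.Quotient.mk Q)⟩

variable {ℓ : ℕ} [Fact ℓ.Prime] {𝒜 : AbVars ℓ} {𝒩 : Newforms ℓ} {ℰ : Residual 𝒜 𝒩}
  {ℛ : Reductions 𝒜}

/-- A place is above at most one prime number. -/
theorem above_unique {k : NField} {v : k.Pl} {p q : Nat.Primes} (hp : (p.1 : k.O) ∈ v.asIdeal)
    (hq : (q.1 : k.O) ∈ v.asIdeal) : p.1 = q.1 := by
  by_contra hne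
  have hco : Nat.Coprime p.1 q.1 := (Nat.coprime_primes p.2 q.2).2 hne
  obtain ⟨x, y, hxy⟩ := (Nat.isCoprime_iff_coprime.2 hco : IsCoprime (p.1 : ℤ) (q.1 : ℤ))
  apply v.isPrime.ne_top
  rw [Ideal.eq_top_iff_one]
  have h1 : (1 : k.O) = (x : k.O) * (p.1 : k.O) + (y : k.O) * (q.1 : k.O) := by
    have h2 := congrArg (Int.cast : ℤ → k.O) hxy
    push_cast at h2
    exact h2.symm
  rw [h1]
  exact v.asIdeal.add_mem (v.asIdeal.mul_mem_left _ hp) (v.asIdeal.mul_mem_left _ hq)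

/-- The comparison of the traces. -/
theorem exists_traces (hA : 𝒜.IsKnown) {k : NField} {M Z : Type} [Field M] [NumberField M]
    [Field Z] [NumberField Z] {a : k.Pl → M} {t : k.Pl → Z} {S₁ S₂ : Finset k.Pl}
    (h : ∀ N : ℕ, ∃ p : Nat.Primes, N ≤ p.1 ∧ ∃ (R : GRep (Fpb p) k.Gal) (r : Red M p)
      (s : Red Z p), TracesMod S₁ R r a ∧ TracesMod S₂ R s t) :
    ∃ (τ : M →+* Qlb ℓ) (σ : Z →+* Qlb ℓ), ∀ v, v ∉ S₁ → v ∉ S₂ → τ (a v) = σ (t v) := by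
  choose p hp R r s hr hs using h
  have hfin : ∀ n : ℕ, n ≠ 0 → {i : ℕ | (n : Fpb (p i)) = 0}.Finite := fun n hn =>
    (Set.finite_Iic n).subset fun i hi =>
      (hp i).trans (Nat.le_of_dvd (Nat.pos_of_ne_zero hn) (dvd_of_cast hi))
  have : CharZero (Qlb ℓ) := (inferInstance : CharZero (AlgebraicClosure ℚ_[ℓ]))
  have : IsAlgClosed (Qlb ℓ) := (inferInstance : IsAlgClosed (AlgebraicClosure ℚ_[ℓ]))
  obtain ⟨τ, σ, hτσ⟩ := exists_pair (fun i => Fpb (p i)) hfin (Ω := Qlb ℓ) r s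
  refine ⟨τ, σ, fun v hv₁ hv₂ => ?_⟩
  obtain ⟨g, hg⟩ := hA.frob k v
  have habove : {i : ℕ | ((p i).1 : k.O) ∈ v.asIdeal}.Finite := by
    by_cases h0 : ∃ i₀, ((p i₀).1 : k.O) ∈ v.asIdeal
    · obtain ⟨i₀, hi₀⟩ := h0
      refine (Set.finite_Iic (p i₀).1).subset fun i hi => ?_
      have h1 : (p i).1 = (p i₀).1 := above_unique hi hi₀
      exact h1 ▸ hp i
    · have h1 : {i : ℕ | ((p i).1 : k.O) ∈ v.asIdeal} = ∅ := by
        ext i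
        simp only [Set.mem_ofPred_eq, Set.mem_empty_iff_false, iff_false]
        exact fun hi => h0 ⟨i, hi⟩
      rw [h1]
      exact Set.finite_empty
  obtain ⟨i₁, hi₁⟩ : ∃ i₁, ((p i₁).1 : k.O) ∉ v.asIdeal := by
    obtain ⟨i, hi⟩ := habove.infinite_compl.nonempty
    exact ⟨i, hi⟩
  obtain ⟨b, hb, -⟩ := hr i₁ v hv₁ hi₁ g hg
  obtain ⟨c, hc, -⟩ := hs i₁ v hv₂ hi₁ g hg
  rw [← hb, ← hc]
  refine hτσ b c (habove.subset fun i hi => ?_)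
  by_contra hiv
  obtain ⟨b', hb', h1⟩ := hr i v hv₁ hiv g hg
  obtain ⟨c', hc', h2⟩ := hs i v hv₂ hiv g hg
  have hbb : b' = b := RingOfIntegers.ext (hb'.trans hb.symm)
  have hcc : c' = c := RingOfIntegers.ext (hc'.trans hc.symm)
  rw [hbb] at h1
  rw [hcc] at h2
  exact hi (h1.symm.trans h2)

theorem has_of_infinite (hA : 𝒜.IsKnown) (hℰ : ℰ.IsKnown ℛ) {k : NField} (hk : k.IsTotReal)
    {f : 𝒩.New k} (hf : 𝒩.IsKnown 𝒜 f) (hF : FormKnown ℰ ℛ f) (D d : ℕ) (S : Finset ℕ)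
    (h : ∀ N : ℕ, ∃ p : Nat.Primes, N ≤ p.1 ∧ OccursMod ℰ ℛ f D d S p) : HasAV 𝒜 𝒩 f := by
  classical
  rcases hF.irr with hirr | hAV
  swap
  · exact hAV
  have h2 : ∃ (k' : NField) (hk' : k.F ≤ k'.F) (A : 𝒜.AV k'), 𝒜.Simple A ∧
      ∀ N : ℕ, ∃ p : Nat.Primes, N ≤ p.1 ∧ ∃ r, Irr (res hk' (ℰ.rbar f p r)) ∧
        Occurs (res hk' (ℰ.rbar f p r)) (ℰ.tor p A) := by
    by_contra hcon
    push Not at hcon
    have h4 : ∀ᶠ n in atTop, ∀ k' ∈ {k' : NField | FieldBound D S k'}, ∀ hk' : k.F ≤ k'.F,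
        ∀ B : 𝒜.AV k', VarBound ℛ d S B → ∀ p : Nat.Primes, p.1 = n → ∀ r,
          ¬ Occurs (res hk' (ℰ.rbar f p r)) (ℰ.tor p B) := by
      refine (Filter.eventually_all_finite (hℰ.hermite D S)).2 fun k' _ => ?_
      by_cases hk' : k.F ≤ k'.F
      swap
      · exact Eventually.of_forall fun n h' => absurd h' hk'
      obtain ⟨N₀, hN₀⟩ := (hirr k' hk').2
      have h3 : ∀ᶠ n in atTop, ∀ A ∈ {A : 𝒜.AV k' | VarBound ℛ d S A}, 𝒜.Simple A →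
          ∀ p : Nat.Primes, p.1 = n → ∀ r, Irr (res hk' (ℰ.rbar f p r)) →
            ¬ Occurs (res hk' (ℰ.rbar f p r)) (ℰ.tor p A) := by
        refine (Filter.eventually_all_finite (hℰ.shafarevich k' d S)).2 fun A _ => ?_
        by_cases hs : 𝒜.Simple A
        · obtain ⟨N, hN⟩ := hcon k' hk' A hs
          exact eventually_atTop.2 ⟨N, fun n hn _ p hp r hr => hN p (hp ▸ hn) r hr⟩
        · exact Eventually.of_forall fun n h => absurd h hs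
      filter_upwards [h3, eventually_ge_atTop N₀] with n hn hn' _ B hB p hp r hocc
      have hi := hN₀ p (hp ▸ hn') r
      obtain ⟨A, hs, hd, hb, ho⟩ := hℰ.poincare k' p B _ hi hocc
      exact hn A ⟨hd.trans hB.1, hb.trans hB.2⟩ hs p hp r hi ho
    obtain ⟨N, hN⟩ := eventually_atTop.1 h4
    obtain ⟨p, hp, k', hk', r, B, hD, hB, hocc⟩ := h N
    exact hN p.1 hp k' hD hk' B hB p rfl r hocc
  obtain ⟨k', hk', A, hs, h2⟩ := h2
  obtain ⟨Z, _, _, m, W, t, S₂, N₁, hm, hT, htor⟩ := hℰ.torsion k' A hs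
  obtain ⟨a, ha, S₁, hS₁⟩ := hF.traces k' hk'
  obtain ⟨τ, σ, hτσ⟩ := exists_traces (ℓ := ℓ) hA (a := a) (t := t) (S₁ := S₁) (S₂ := S₂)
    fun N => by
      obtain ⟨p, hp, r, hi, ho⟩ := h2 (max N N₁)
      obtain ⟨s, hs'⟩ := htor p (le_trans (le_max_right _ _) hp) _ hi ho
      exact ⟨p, le_trans (le_max_left _ _) hp, _, r, s, hS₁ p r, hs'⟩
  have hsame : SameTraces (res hk' (𝒩.ρ f τ)) (W σ) := by
    obtain ⟨S₃, h3⟩ := ha τ
    obtain ⟨S₄, h4⟩ := hT.trace σ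
    refine ⟨S₁ ∪ S₂ ∪ S₃ ∪ S₄, fun v hv g hg => ?_⟩
    simp only [Finset.mem_union, not_or] at hv
    rw [h3 v hv.1.2 g hg, h4 v hv.2 g hg, hτσ v hv.1.1.1 hv.1.1.2]
  have hiso : Isom (res hk' (𝒩.ρ f τ)) (W σ) :=
    hA.chebotarev k' _ _ ((hirr k' hk').1 τ) (hT.irr σ) (hF.cont k' hk' τ) (hT.cont σ) hsame
  have hocc : Occurs (W σ) (𝒜.V A) :=
    hT.sum.occurs ((σ, ⟨0, hm⟩) : (Z →+* Qlb ℓ) × Fin m) (hT.irr σ)
  exact (attached_iff hA hk hf).2 ⟨τ, k', hk', A, hocc.of_isom hiso⟩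

theorem ramified_finite (k : NField) : (ramified k).Finite := by
  have := k.fin
  have : NumberField k.F := ⟨⟩
  have h0 : (NumberField.discr k.F).natAbs ≠ 0 :=
    Int.natAbs_ne_zero.2 (NumberField.discr_ne_zero k.F)
  refine (Set.finite_Iic (NumberField.discr k.F).natAbs).subset fun p hp => ?_
  have h1 : (p : ℤ) ∣ NumberField.discr k.F := hp.2
  exact Nat.le_of_dvd (Nat.pos_of_ne_zero h0) (Int.natCast_dvd.1 h1)

theorem exactly_of (hA : 𝒜.IsKnown) {k : NField} (hk : k.IsTotReal) {f : 𝒩.New k}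
    (hf : 𝒩.IsKnown 𝒜 f) (hF : FormKnown ℰ ℛ f) (h : HasAV 𝒜 𝒩 f) (p : Nat.Primes) :
    OccursExactly ℰ ℛ f p := by
  obtain ⟨A, hAtt, hdim, -⟩ := ((pointwise hA hk hf).out 0 1).1 h
  obtain ⟨r⟩ := exists_red (𝒩.M f) p
  exact ⟨r, A, hdim, hF.good A hAtt, hF.occurs A hAtt p r⟩

theorem exists_bounds {k : NField} {f : 𝒩.New k} (hF : FormKnown ℰ ℛ f) :
    ∃ (D d : ℕ) (S : Finset ℕ), ∀ p, OccursExactly ℰ ℛ f p → OccursMod ℰ ℛ f D d S p := by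
  classical
  refine ⟨Module.finrank ℚ k.F, Module.finrank ℚ (𝒩.M f),
    hF.finite.toFinset ∪ (ramified_finite k).toFinset, fun p ⟨r, A, h1, h2, h3⟩ =>
    ⟨k, le_refl _, r, A, ⟨le_rfl, ?_⟩, ⟨h1.le, ?_⟩, ?_⟩⟩
  · intro q hq
    simp only [Finset.coe_union, Set.Finite.coe_toFinset]
    exact Or.inr hq
  · intro q hq
    simp only [Finset.coe_union, Set.Finite.coe_toFinset]
    exact Or.inl (h2 hq)
  · obtain ⟨φ, h0, hφ⟩ := h3
    exact ⟨φ, h0, hφ⟩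

theorem has_of_mod (hA : 𝒜.IsKnown) (hℰ : ℰ.IsKnown ℛ) {k : NField} (hk : k.IsTotReal)
    {f : 𝒩.New k} (hf : 𝒩.IsKnown 𝒜 f) (hF : FormKnown ℰ ℛ f) (D d : ℕ) (S : Finset ℕ) :
    ∃ N : ℕ, ∀ p : Nat.Primes, N ≤ p.1 → OccursMod ℰ ℛ f D d S p → HasAV 𝒜 𝒩 f := by
  by_contra hcon
  push Not at hcon
  have h1 : HasAV 𝒜 𝒩 f := has_of_infinite hA hℰ hk hf hF D d S fun N => by
    obtain ⟨p, hp, h, -⟩ := hcon N
    exact ⟨p, hp, h⟩
  obtain ⟨p, -, -, h⟩ := hcon 0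
  exact h h1

theorem one_prime (hA : 𝒜.IsKnown) (hℰ : ℰ.IsKnown ℛ) {k : NField} (hk : k.IsTotReal)
    {f : 𝒩.New k} (hf : 𝒩.IsKnown 𝒜 f) (hF : FormKnown ℰ ℛ f) :
    ∃ N : ℕ, ∀ p : Nat.Primes, N ≤ p.1 → (HasAV 𝒜 𝒩 f ↔ OccursExactly ℰ ℛ f p) := by
  obtain ⟨D, d, S, h⟩ := exists_bounds hF
  obtain ⟨N, hN⟩ := has_of_mod hA hℰ hk hf hF D d S
  exact ⟨N, fun p hp => ⟨fun h' => exactly_of hA hk hf hF h' p, fun h' => hN p hp (h p h')⟩⟩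

theorem tfae (hA : 𝒜.IsKnown) (hℰ : ℰ.IsKnown ℛ) {k : NField} (hk : k.IsTotReal)
    {f : 𝒩.New k} (hf : 𝒩.IsKnown 𝒜 f) (hF : FormKnown ℰ ℛ f) :
    List.TFAE [HasAV 𝒜 𝒩 f, OccursInfinitely ℰ ℛ f, ∀ p, OccursExactly ℰ ℛ f p] := by
  tfae_have 1 → 3 := fun h p => exactly_of hA hk hf hF h p
  tfae_have 3 → 2 := fun h => by
    obtain ⟨D, d, S, h'⟩ := exists_bounds hF
    refine ⟨D, d, S, fun N => ?_⟩
    obtain ⟨q, hq, hqp⟩ := Nat.exists_infinite_primes N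
    exact ⟨⟨q, hqp⟩, hq, h' _ (h _)⟩
  tfae_have 2 → 1 := fun ⟨D, d, S, h⟩ => has_of_infinite hA hℰ hk hf hF D d S h
  tfae_finish

theorem q1_iff (hA : 𝒜.IsKnown) (hℰ : ℰ.IsKnown ℛ)
    (hN : ∀ k : NField, k.IsTotReal → ∀ f : 𝒩.New k, 𝒩.IsKnown 𝒜 f)
    (hF : ∀ k : NField, k.IsTotReal → ∀ f : 𝒩.New k, FormKnown ℰ ℛ f)
    (hb : HasBaseChange 𝒩) (hZ : ZhangTheorem 𝒜 𝒩) {L : NField} (hLr : L.IsTotReal) :
    Q1 𝒜 𝒩 ↔ RemainingResidual ℰ ℛ L := by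
  have h := main hA hN hb hZ hLr
  constructor
  · intro h1 k hk _ heven f hlev _
    have h2 : AllNewforms 𝒜 𝒩 := (h.out 0 1).2 h1
    exact ((tfae hA hℰ hk (hN k hk f) (hF k hk f)).out 0 1).1 (h2 k hk f)
  · intro h1
    refine (h.out 1 3).2 fun k hk hLk heven f hlev hcom => ?_
    exact (attached_iff hA hk (hN k hk f)).1
      (((tfae hA hℰ hk (hN k hk f) (hF k hk f)).out 0 1).2 (h1 k hk hLk heven f hlev hcom))

end Pool.Agent.J4.H13.RD
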